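import Pool.Agent.Helper8.TB.St
import Pool.Agent.Helper8.TB.M_Chart

/-!
# Project TB (MP_26ac92_gt), module Sur: the image of the chart contains the interior of the projection
-/

set_option autoImplicit false

namespace Pool.Agent.Helper69.TB

open Pool.Helper8.TB MeasureTheory Filter Topology

theorem hSur : StSup → StFace → StBody → StSur := by
  intro hSup hFace hBody m τ ε q q1 p r hD e J u he hF
  obtain ⟨c1, c2, c3, c4, c5, c6⟩ := Pool.Helper8.TB.hChart m J u hF
  obtain ⟨-, hKc, -, -⟩ := hBody (m + 1) m τ ε q q1 p r hD e he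
  refine ⟨?_, ?_⟩
  · rintro a ⟨y, hy, rfl⟩
    have hy' : ‖y‖ < 1 := by simpa using hy
    obtain ⟨n1, -, -, -⟩ := c5 y hy'
    exact ⟨X q p e (nu J u y), fun ω hω => (hSup (m + 1) m τ ε q q1 p r hD e _ ω he n1 hω).1, rfl⟩
  · intro a ha
    obtain ⟨x₀, hx₀K, hx₀a⟩ := interior_subset ha
    have hcJ : Continuous (Jt J) := (Jt J).continuous
    have hS : IsCompact (Bd q p e ∩ (Jt J) ⁻¹' {a}) :=
      hKc.inter_right (isClosed_singleton.preimage hcJ)
    have hne : (Bd q p e ∩ (Jt J) ⁻¹' {a}).Nonempty := ⟨x₀, hx₀K, hx₀a⟩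
    have hci : Continuous fun x : W (m + 1) => (inner ℝ x u : ℝ) := continuous_id.inner continuous_const
    obtain ⟨x, ⟨hxK, hxa⟩, hmax⟩ := hS.exists_isMaxOn hne hci.continuousOn
    have hxa' : Jt J x = a := hxa
    have huu : (inner ℝ u u : ℝ) = 1 := by
      rw [real_inner_self_eq_norm_sq, hF.hu]
      norm_num
    -- the points above `x` are not in the body
    have hout : ∀ k : ℕ, ∃ ν : W (m + 1), ‖ν‖ = 1 ∧
        hh q p e ν < inner ℝ (x + (1 / ((k : ℝ) + 1)) • u) ν := by
      intro k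
      have hk : (0 : ℝ) < 1 / ((k : ℝ) + 1) := Nat.one_div_pos_of_nat
      have hnot : x + (1 / ((k : ℝ) + 1)) • u ∉ Bd q p e := by
        intro hin
        have h1 : Jt J (x + (1 / ((k : ℝ) + 1)) • u) = a := by
          rw [map_add, map_smul, c4, smul_zero, add_zero, hxa']
        have h2 := hmax (show x + (1 / ((k : ℝ) + 1)) • u ∈ Bd q p e ∩ (Jt J) ⁻¹' {a} from ⟨hin, h1⟩)
        simp only [Set.mem_setOf_eq] at h2
        rw [inner_add_left, real_inner_smul_left, huu] at h2
        linarith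
      have h3 : ¬ ∀ ν : W (m + 1), ‖ν‖ = 1 → inner ℝ (x + (1 / ((k : ℝ) + 1)) • u) ν ≤ hh q p e ν := hnot
      push Not at h3
      exact h3
    choose ν hν1 hν2 using hout
    have hνu : ∀ k : ℕ, 0 ≤ (inner ℝ u (ν k) : ℝ) := by
      intro k
      have hk : (0 : ℝ) < 1 / ((k : ℝ) + 1) := Nat.one_div_pos_of_nat
      have h1 := hν2 k
      have h2 : inner ℝ x (ν k) ≤ hh q p e (ν k) := hxK (ν k) (hν1 k)
      rw [inner_add_left, real_inner_smul_left] at h1
      by_contra hneg
      push Not at hneg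
      have h3 : 1 / ((k : ℝ) + 1) * (inner ℝ u (ν k) : ℝ) ≤ 0 :=
        mul_nonpos_of_nonneg_of_nonpos hk.le hneg.le
      linarith
    obtain ⟨ω, hω, φ, hφ, hlim⟩ := (isCompact_sphere (0 : W (m + 1)) 1).tendsto_subseq
      (x := ν) (fun k => by simpa using hν1 k)
    have hω1 : ‖ω‖ = 1 := by simpa using hω
    have hcq : Continuous q := continuous_iff_continuousAt.2 fun t => (hD.hq t).continuousAt
    have hcp : Continuous p := continuous_iff_continuousAt.2 fun t => (hD.hp t).continuousAt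
    have hce : Continuous fun z : W (m + 1) => (inner ℝ z e : ℝ) := continuous_id.inner continuous_const
    have hchh : Continuous fun z : W (m + 1) => hh q p e z := by
      unfold hh
      exact (hcq.comp hce).add (hce.mul (hcp.comp hce))
    have hl1 : Tendsto (fun k : ℕ => hh q p e (ν (φ k))) atTop (𝓝 (hh q p e ω)) :=
      (hchh.tendsto ω).comp hlim
    have hl0 : Tendsto (fun k : ℕ => 1 / (((φ k : ℕ) : ℝ) + 1)) atTop (𝓝 0) :=
      tendsto_one_div_add_atTop_nhds_zero_nat.comp hφ.tendsto_atTop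
    have hl2 : Tendsto (fun k : ℕ => (inner ℝ (x + (1 / (((φ k : ℕ) : ℝ) + 1)) • u) (ν (φ k)) : ℝ)) atTop
        (𝓝 (inner ℝ x ω)) := by
      have h1 : Tendsto (fun k : ℕ => x + (1 / (((φ k : ℕ) : ℝ) + 1)) • u) atTop (𝓝 (x + (0 : ℝ) • u)) :=
        tendsto_const_nhds.add (hl0.smul tendsto_const_nhds)
      rw [zero_smul, add_zero] at h1
      exact h1.inner hlim
    have hge : hh q p e ω ≤ inner ℝ x ω := le_of_tendsto_of_tendsto' hl1 hl2 fun k => (hν2 (φ k)).le
    have heq : inner ℝ x ω = hh q p e ω := le_antisymm (hxK ω hω1) hge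
    have hl3 : Tendsto (fun k : ℕ => (inner ℝ u (ν (φ k)) : ℝ)) atTop (𝓝 (inner ℝ u ω)) :=
      (tendsto_const_nhds (x := u)).inner hlim
    have hω0 : 0 ≤ (inner ℝ u ω : ℝ) := ge_of_tendsto' hl3 fun k => hνu (φ k)
    have hxX : x = X q p e ω := hFace (m + 1) m τ ε q q1 p r hD e ω x he hω1 hxK heq
    rcases hω0.eq_or_lt with h0 | hpos
    · exfalso
      have h0' : (inner ℝ ω u : ℝ) = 0 := by rw [real_inner_comm]; exact h0.symm
      have hJη : J (Jt J ω) = ω := by rw [c1, h0', zero_smul, sub_zero]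
      have hη : ‖Jt J ω‖ = 1 := by
        rw [← J.norm_map, hJη, hω1]
      obtain ⟨δ, hδ, hball⟩ := Metric.isOpen_iff.1 isOpen_interior a ha
      have hin : a + (δ / 2) • Jt J ω ∈ Metric.ball a δ := by
        rw [Metric.mem_ball, dist_eq_norm, add_sub_cancel_left, norm_smul, hη, mul_one,
          Real.norm_eq_abs, abs_of_pos (by linarith)]
        linarith
      obtain ⟨x', hx'K, hx'a⟩ := interior_subset (hball hin)
      have h1 : (inner ℝ x' ω : ℝ) ≤ hh q p e ω := hx'K ω hω1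
      have h2 : (inner ℝ (Jt J x') (Jt J ω) : ℝ) = inner ℝ x' ω := by rw [c3, hJη]
      have h3 : (inner ℝ (Jt J x) (Jt J ω) : ℝ) = inner ℝ x ω := by rw [c3, hJη]
      rw [hx'a, inner_add_left, real_inner_smul_left, real_inner_self_eq_norm_sq, hη] at h2
      rw [hxa'] at h3
      have h4 : (inner ℝ a (Jt J ω) : ℝ) = hh q p e ω := by rw [h3, heq]
      rw [h4] at h2
      linarith
    · have hpos' : 0 < (inner ℝ ω u : ℝ) := by rw [real_inner_comm]; exact hpos
      obtain ⟨y, hy, hyω⟩ := c6 ω hω1 hpos'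
      refine ⟨y, by simpa using hy, ?_⟩
      show Jt J (X q p e (nu J u y)) = a
      rw [hyω, ← hxX]
      exact hxa'

end Pool.Agent.Helper69.TB
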